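import Mathlib

set_option autoImplicit false

namespace Pool.Agent.Results.MP_44c8f1_al.Complements

section

structure IsForm (F : ∀ (G : Type) [Group G], Prop) : Prop where
  fin : ∀ (G : Type) [Group G], F G → Finite G
  iso : ∀ (G H : Type) [Group G] [Group H], Nonempty (G ≃* H) → F G → F H
  quot : ∀ (G : Type) [Group G] (N : Subgroup G) [N.Normal], F G → F (G ⧸ N)
  inf : ∀ (G : Type) [Group G] (N₁ N₂ : Subgroup G) [N₁.Normal] [N₂.Normal],
          F (G ⧸ N₁) → F (G ⧸ N₂) → F (G ⧸ (N₁ ⊓ N₂))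

def plus (F : ∀ (G : Type) [Group G], Prop) (G : Type) [Group G] : Prop := F G ∨ Subsingleton G

def InF (F : ∀ (G : Type) [Group G], Prop) {H : Type} [Group H] (N : Subgroup H) : Prop :=
  ∃ _ : N.Normal, F (H ⧸ N)

theorem top_of_sub {G : Type} [Group G] (N : Subgroup G) [N.Normal] (h : Subsingleton (G ⧸ N)) :
    N = ⊤ := by
  rw [eq_top_iff]
  intro g _
  rw [← QuotientGroup.eq_one_iff]
  exact Subsingleton.elim _ _

theorem plus_form {F : ∀ (G : Type) [Group G], Prop} (hF : IsForm F) : IsForm (plus F) := by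
  refine ⟨?_, ?_, ?_, ?_⟩
  · intro G _ h
    rcases h with h | h
    · exact hF.fin G h
    · exact Finite.of_subsingleton
  · intro G H _ _ e h
    rcases h with h | h
    · exact Or.inl (hF.iso G H e h)
    · exact Or.inr (e.some.symm.injective.subsingleton)
  · intro G _ N _ h
    rcases h with h | h
    · exact Or.inl (hF.quot G N h)
    · exact Or.inr ((QuotientGroup.mk'_surjective N).subsingleton)
  · intro G _ N₁ N₂ _ _ h₁ h₂
    rcases h₁ with h₁ | h₁
    · rcases h₂ with h₂ | h₂
      · exact Or.inl (hF.inf G N₁ N₂ h₁ h₂)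
      · have := top_of_sub N₂ h₂
        left
        refine hF.iso (G ⧸ N₁) _ ⟨QuotientGroup.quotientMulEquivOfEq ?_⟩ h₁
        rw [this]; simp
    · have := top_of_sub N₁ h₁
      rcases h₂ with h₂ | h₂
      · left
        refine hF.iso (G ⧸ N₂) _ ⟨QuotientGroup.quotientMulEquivOfEq ?_⟩ h₂
        rw [this]; simp
      · right
        have h2 := top_of_sub N₂ h₂
        have h3 : N₁ ⊓ N₂ = ⊤ := by rw [this, h2]; simp
        have e : (G ⧸ (N₁ ⊓ N₂)) ≃* (G ⧸ N₂) :=
          QuotientGroup.quotientMulEquivOfEq (by rw [h3, h2])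
        exact e.injective.subsingleton

theorem InF.mono {F : ∀ (G : Type) [Group G], Prop} (hF : IsForm F) {H : Type} [Group H]
    {N M : Subgroup H} (h : InF F N) (hle : N ≤ M) (hM : M.Normal) : InF F M := by
  obtain ⟨hN, h⟩ := h
  refine ⟨hM, ?_⟩
  exact hF.iso _ _ ⟨QuotientGroup.quotientQuotientEquivQuotient N M hle⟩ (hF.quot _ _ h)

theorem InF.inf {F : ∀ (G : Type) [Group G], Prop} (hF : IsForm F) {H : Type} [Group H]
    {N M : Subgroup H} (h : InF F N) (h' : InF F M) : InF F (N ⊓ M) := by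
  obtain ⟨hN, h⟩ := h
  obtain ⟨hM, h'⟩ := h'
  exact ⟨inferInstance, hF.inf H N M h h'⟩

theorem InF.comap {F : ∀ (G : Type) [Group G], Prop} (hF : IsForm F) {H G : Type} [Group H]
    [Group G] (π : H →* G) (hπ : Function.Surjective π)
    {N : Subgroup G} (h : InF F N) : InF F (N.comap π) := by
  obtain ⟨hN, h⟩ := h
  refine ⟨inferInstance, ?_⟩
  have hs : Function.Surjective ((QuotientGroup.mk' N).comp π) :=
    (QuotientGroup.mk'_surjective N).comp hπ
  have e1 := QuotientGroup.quotientKerEquivOfSurjective ((QuotientGroup.mk' N).comp π) hs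
  have hk : ((QuotientGroup.mk' N).comp π).ker = N.comap π := by
    rw [← MonoidHom.comap_ker, QuotientGroup.ker_mk']
  refine hF.iso _ _ ⟨e1.symm.trans (QuotientGroup.quotientMulEquivOfEq hk)⟩ h

theorem InF.ker {F : ∀ (G : Type) [Group G], Prop} (hF : IsForm F) {H G : Type} [Group H]
    [Group G] (π : H →* G) (hπ : Function.Surjective π) (h : F G) : InF F π.ker :=
  ⟨inferInstance, hF.iso _ _ ⟨(QuotientGroup.quotientKerEquivOfSurjective π hπ).symm⟩ h⟩

theorem InF.of_ker {F : ∀ (G : Type) [Group G], Prop} (hF : IsForm F) {H G : Type} [Group H]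
    [Group G] (π : H →* G) (hπ : Function.Surjective π) (h : InF F π.ker) : F G := by
  obtain ⟨_, h⟩ := h
  exact hF.iso _ _ ⟨(QuotientGroup.quotientKerEquivOfSurjective π hπ)⟩ h

theorem InF.top (F : ∀ (G : Type) [Group G], Prop) {H : Type} [Group H] :
    InF (plus F) (⊤ : Subgroup H) := by
  refine ⟨inferInstance, Or.inr ?_⟩
  exact QuotientGroup.subsingleton_quotient_top

def joinClass (A B : ∀ (G : Type) [Group G], Prop) (G : Type) [Group G] : Prop :=
  Finite G ∧ ∃ (H : Type) (_ : Group H) (π : H →* G) (M₁ M₂ : Subgroup H),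
    Function.Surjective π ∧ InF A M₁ ∧ InF B M₂ ∧ M₁ ⊓ M₂ ≤ π.ker

/-- fibre product -/
def fib {G H Q : Type} [Group G] [Group H] [Group Q] (p : G →* Q) (q : H →* Q) :
    Subgroup (G × H) where
  carrier := {x | p x.1 = q x.2}
  mul_mem' := by
    intro a b ha hb
    simp only [Set.mem_ofPred_eq, Prod.fst_mul, Prod.snd_mul, map_mul] at *
    rw [ha, hb]
  one_mem' := by simp
  inv_mem' := by
    intro a ha
    simp only [Set.mem_ofPred_eq, Prod.fst_inv, Prod.snd_inv, map_inv] at *
    rw [ha]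

theorem fib_fst_surj {G H Q : Type} [Group G] [Group H] [Group Q] (p : G →* Q) (q : H →* Q)
    (hq : Function.Surjective q) :
    Function.Surjective ((MonoidHom.fst G H).comp (fib p q).subtype) := by
  intro g
  obtain ⟨h, hh⟩ := hq (p g)
  exact ⟨⟨(g, h), hh.symm⟩, rfl⟩

theorem fib_snd_surj {G H Q : Type} [Group G] [Group H] [Group Q] (p : G →* Q) (q : H →* Q)
    (hp : Function.Surjective p) :
    Function.Surjective ((MonoidHom.snd G H).comp (fib p q).subtype) := by
  intro h
  obtain ⟨g, hg⟩ := hp (q h)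
  exact ⟨⟨(g, h), hg⟩, rfl⟩

theorem joinClass_form {A B : ∀ (G : Type) [Group G], Prop} (hA : IsForm A) (hB : IsForm B) :
    IsForm (joinClass A B) := by
  refine ⟨?_, ?_, ?_, ?_⟩
  · intro G _ h
    exact h.1
  · rintro G H _ _ ⟨e⟩ ⟨hf, K, _, π, M₁, M₂, hs, h₁, h₂, hle⟩
    refine ⟨Finite.of_equiv G e.toEquiv, K, inferInstance, e.toMonoidHom.comp π, M₁, M₂,
      e.surjective.comp hs, h₁, h₂, ?_⟩
    intro k hk
    have := hle hk
    rw [MonoidHom.mem_ker] at this ⊢
    simp [this]
  · rintro G _ N _ ⟨hf, K, _, π, M₁, M₂, hs, h₁, h₂, hle⟩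
    refine ⟨inferInstance, K, inferInstance, (QuotientGroup.mk' N).comp π, M₁, M₂,
      (QuotientGroup.mk'_surjective N).comp hs, h₁, h₂, ?_⟩
    intro k hk
    have := hle hk
    rw [MonoidHom.mem_ker] at this ⊢
    simp [this]
  · rintro G _ N₁ N₂ _ _ ⟨hf, K, _, π, M₁, M₂, hs, h₁, h₂, hle⟩ ⟨hf', K', _, π', M₁', M₂', hs', h₁', h₂', hle'⟩
    refine ⟨?_, ?_⟩
    · have i1 : N₁.FiniteIndex := Subgroup.finiteIndex_of_finite_quotient
      have i2 : N₂.FiniteIndex := Subgroup.finiteIndex_of_finite_quotient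
      have i3 : (N₁ ⊓ N₂).FiniteIndex := inferInstance
      exact Subgroup.finite_quotient_of_finiteIndex
    · let P := fib (QuotientGroup.mk' N₁) π
      let a : P →* G := (MonoidHom.fst G K).comp P.subtype
      have ha : Function.Surjective a := fib_fst_surj _ _ hs
      let b : P →* K := (MonoidHom.snd G K).comp P.subtype
      have hb : Function.Surjective b := fib_snd_surj _ _ (QuotientGroup.mk'_surjective N₁)
      let P' := fib ((QuotientGroup.mk' N₂).comp a) π'
      let c : P' →* P := (MonoidHom.fst P K').comp P'.subtype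
      have hc : Function.Surjective c := fib_fst_surj _ _ hs'
      let d : P' →* K' := (MonoidHom.snd P K').comp P'.subtype
      have hd : Function.Surjective d :=
        fib_snd_surj _ _ ((QuotientGroup.mk'_surjective N₂).comp ha)
      refine ⟨P', inferInstance, (QuotientGroup.mk' (N₁ ⊓ N₂)).comp (a.comp c),
        (M₁.comap (b.comp c)) ⊓ (M₁'.comap d), (M₂.comap (b.comp c)) ⊓ (M₂'.comap d),
        (QuotientGroup.mk'_surjective _).comp (ha.comp hc), ?_, ?_, ?_⟩
      · exact InF.inf hA (InF.comap hA (b.comp c) (hb.comp hc) h₁) (InF.comap hA d hd h₁')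
      · exact InF.inf hB (InF.comap hB (b.comp c) (hb.comp hc) h₂) (InF.comap hB d hd h₂')
      · intro z hz
        have e1 : b (c z) ∈ M₁ ⊓ M₂ := ⟨hz.1.1, hz.2.1⟩
        have e2 : d z ∈ M₁' ⊓ M₂' := ⟨hz.1.2, hz.2.2⟩
        have f1 := hle e1
        have f2 := hle' e2
        rw [MonoidHom.mem_ker] at f1 f2
        have g1 : QuotientGroup.mk' N₁ (a (c z)) = π (b (c z)) := (c z).2
        have g2 : QuotientGroup.mk' N₂ (a (c z)) = π' (d z) := z.2
        rw [f1] at g1
        rw [f2] at g2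
        rw [MonoidHom.mem_ker]
        have : a (c z) ∈ N₁ ⊓ N₂ :=
          ⟨(QuotientGroup.eq_one_iff _).1 g1, (QuotientGroup.eq_one_iff _).1 g2⟩
        exact (QuotientGroup.eq_one_iff _).2 this

theorem joinClass_left {A B : ∀ (G : Type) [Group G], Prop} (hA : IsForm A)
    (G : Type) [Group G] (h : A G) : joinClass (plus A) (plus B) G := by
  refine ⟨hA.fin G h, G, inferInstance, MonoidHom.id G, ⊥, ⊤, Function.surjective_id, ?_,
    InF.top B, ?_⟩
  · have := InF.ker hA (MonoidHom.id G) Function.surjective_id h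
    rw [MonoidHom.ker_id] at this
    obtain ⟨i, h⟩ := this
    exact ⟨i, Or.inl h⟩
  · simp

theorem joinClass_right {A B : ∀ (G : Type) [Group G], Prop} (hB : IsForm B)
    (G : Type) [Group G] (h : B G) : joinClass (plus A) (plus B) G := by
  refine ⟨hB.fin G h, G, inferInstance, MonoidHom.id G, ⊤, ⊥, Function.surjective_id,
    InF.top A, ?_, ?_⟩
  · have := InF.ker hB (MonoidHom.id G) Function.surjective_id h
    rw [MonoidHom.ker_id] at this
    obtain ⟨i, h⟩ := this
    exact ⟨i, Or.inl h⟩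
  · simp

theorem joinClass_triv {A B : ∀ (G : Type) [Group G], Prop}
    (G : Type) [Group G] (h : Subsingleton G) : joinClass (plus A) (plus B) G := by
  refine ⟨Finite.of_subsingleton, G, inferInstance, MonoidHom.id G, ⊤, ⊤, Function.surjective_id,
    InF.top A, InF.top B, ?_⟩
  intro g _
  exact Subsingleton.elim _ _

end

section

def SatF (F : ∀ (G : Type) [Group G], Prop) : Prop :=
  ∀ (G : Type) [Group G] [Finite G], F (G ⧸ frattini G) → F G

def Form4 (F : (G : Type) → [Group G] → Prop) : Prop :=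
  ((∀ (G : Type) [Group G], F G → Finite G) ∧
           (∀ (G K : Type) [Group G] [Group K], Nonempty (G ≃* K) → F G → F K) ∧
           (∀ (G : Type) [Group G] (N : Subgroup G) [N.Normal], F G → F (G ⧸ N)) ∧
           (∀ (G : Type) [Group G] [Finite G] (N L : Subgroup G) [N.Normal] [L.Normal],
              N ⊓ L = ⊥ → F (G ⧸ N) → F (G ⧸ L) → F G))

theorem Form4.toIs {F : (G : Type) → [Group G] → Prop} (h : Form4 F) : IsForm F := by
  obtain ⟨h1, h2, h3, h4⟩ := h
  refine ⟨h1, h2, h3, ?_⟩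
  intro G _ N₁ N₂ _ _ f₁ f₂
  have i1 : Finite (G ⧸ N₁) := h1 _ f₁
  have i2 : Finite (G ⧸ N₂) := h1 _ f₂
  have j1 : N₁.FiniteIndex := Subgroup.finiteIndex_of_finite_quotient
  have j2 : N₂.FiniteIndex := Subgroup.finiteIndex_of_finite_quotient
  have j3 : (N₁ ⊓ N₂).FiniteIndex := inferInstance
  have i3 : Finite (G ⧸ (N₁ ⊓ N₂)) := Subgroup.finite_quotient_of_finiteIndex
  have k1 : (N₁.map (QuotientGroup.mk' (N₁ ⊓ N₂))).Normal :=
    Subgroup.Normal.map inferInstance _ (QuotientGroup.mk'_surjective _)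
  have k2 : (N₂.map (QuotientGroup.mk' (N₁ ⊓ N₂))).Normal :=
    Subgroup.Normal.map inferInstance _ (QuotientGroup.mk'_surjective _)
  refine h4 (G ⧸ (N₁ ⊓ N₂)) (N₁.map (QuotientGroup.mk' _)) (N₂.map (QuotientGroup.mk' _)) ?_
    (h2 _ _ ⟨(QuotientGroup.quotientQuotientEquivQuotient (N₁ ⊓ N₂) N₁ inf_le_left).symm⟩ f₁)
    (h2 _ _ ⟨(QuotientGroup.quotientQuotientEquivQuotient (N₁ ⊓ N₂) N₂ inf_le_right).symm⟩ f₂)
  rw [eq_bot_iff]
  rintro z ⟨⟨a, ha, rfl⟩, ⟨b, hb, hab⟩⟩
  have : b⁻¹ * a ∈ N₁ ⊓ N₂ := QuotientGroup.eq.1 hab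
  have ha2 : a ∈ N₂ := by
    have := N₂.mul_mem hb this.2
    simpa using this
  exact (QuotientGroup.eq_one_iff a).2 ⟨ha, ha2⟩

theorem IsForm.to4 {F : (G : Type) → [Group G] → Prop} (h : IsForm F) : Form4 F := by
  refine ⟨h.fin, h.iso, h.quot, ?_⟩
  intro G _ _ N L _ _ hNL f₁ f₂
  have := h.inf G N L f₁ f₂
  refine h.iso _ _ ⟨?_⟩ this
  exact (QuotientGroup.quotientMulEquivOfEq hNL).trans QuotientGroup.quotientBot

theorem top_of_triv {F : ∀ (G : Type) [Group G], Prop} (hF : IsForm F)
    (hne : ∃ (G : Type) (_ : Group G), F G) {H : Type} [Group H] : InF F (⊤ : Subgroup H) := by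
  obtain ⟨G, _, hG⟩ := hne
  refine ⟨inferInstance, ?_⟩
  have h1 := hF.quot G ⊤ hG
  have i1 : Subsingleton (G ⧸ (⊤ : Subgroup G)) := QuotientGroup.subsingleton_quotient_top
  have i2 : Subsingleton (H ⧸ (⊤ : Subgroup H)) := QuotientGroup.subsingleton_quotient_top
  have e : (G ⧸ (⊤ : Subgroup G)) ≃* (H ⧸ (⊤ : Subgroup H)) :=
    { toFun := fun _ => 1
      invFun := fun _ => 1
      left_inv := fun a => Subsingleton.elim _ _
      right_inv := fun a => Subsingleton.elim _ _
      map_mul' := fun a b => Subsingleton.elim _ _ }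
  exact hF.iso _ _ ⟨e⟩ h1

/-- The core step. -/
theorem core (H F₁ F₂ : ∀ (G : Type) [Group G], Prop) (hH : IsForm H) (sH : SatF H)
    (hF₁ : IsForm F₁) (hF₂ : IsForm F₂)
    (hinter : ∀ (G : Type) [Group G], F₁ G → F₂ G → H G)
    (hH1 : ∀ (G : Type) [Group G], H G → F₁ G)
    (G : Type) [Group G] [Finite G] (N : Subgroup G) (hNn : N.Normal) (hN0 : N ≠ ⊥)
    (hmin : ∀ M : Subgroup G, M.Normal → M ≤ N → M = ⊥ ∨ M = N)
    (hNab : ∀ x ∈ N, ∀ y ∈ N, x * y = y * x)
    (hNF : N ≤ frattini G) (hGN : InF F₁ N) (hG : joinClass F₁ F₂ G) : F₁ G := by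
  by_contra hcon
  obtain ⟨_, X, _, π, A₀, B, hπ, hA₀, hB, hle⟩ := hG
  -- shrink A
  set A : Subgroup X := A₀ ⊓ N.comap π with hAdef
  have hA : InF F₁ A := InF.inf hF₁ hA₀ (InF.comap hF₁ π hπ hGN)
  have hAB : A ⊓ B ≤ π.ker := (inf_le_inf inf_le_left le_rfl).trans hle
  have hAn : A.Normal := hA.1
  have hBn : B.Normal := hB.1
  have hAN : A ≤ N.comap π := inf_le_right
  have hAK : ¬ A ≤ π.ker := fun h => hcon (InF.of_ker hF₁ π hπ (InF.mono hF₁ hA h inferInstance))
  have hEn : (B ⊓ π.ker).Normal := Subgroup.normal_inf_normal _ _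
  have hDn : (A ⊓ π.ker).Normal := Subgroup.normal_inf_normal _ _
  let A' : Subgroup X := A ⊔ (B ⊓ π.ker)
  let B' : Subgroup X := B ⊔ (A ⊓ π.ker)
  have hA'n : A'.Normal := Subgroup.sup_normal _ _
  have hB'n : B'.Normal := Subgroup.sup_normal _ _
  have hA' : InF F₁ A' := InF.mono hF₁ hA le_sup_left hA'n
  have hB' : InF F₂ B' := InF.mono hF₂ hB le_sup_left hB'n
  have hA'N : A' ≤ N.comap π := sup_le hAN (fun x hx => by
    have : π x = 1 := hx.2
    show π x ∈ N
    rw [this]; exact N.one_mem)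
  have hA'K : ¬ A' ≤ π.ker := fun h => hAK (le_sup_left.trans h)
  -- members of A' in the kernel lie in B'
  have hA'KB : A' ⊓ π.ker ≤ B' := by
    rintro x ⟨hx, hxk⟩
    obtain ⟨a, ha, e, he, rfl⟩ := Subgroup.mem_sup_of_normal_right.1 hx
    have he1 : π e = 1 := he.2
    have hx1 : π (a * e) = 1 := hxk
    have ha1 : π a = 1 := by rw [map_mul, he1, mul_one] at hx1; exact hx1
    have m1 : a ∈ A ⊓ π.ker := ⟨ha, ha1⟩
    exact Subgroup.mul_mem _ (Subgroup.mem_sup_right m1) (Subgroup.mem_sup_left he.1)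
  have hA'B' : A' ⊓ B' ≤ π.ker := by
    rintro x ⟨hx, hx'⟩
    obtain ⟨a, ha, e, he, rfl⟩ := Subgroup.mem_sup_of_normal_right.1 hx
    obtain ⟨b, hb, d, hd, hbd⟩ := Subgroup.mem_sup_of_normal_right.1 hx'
    -- b * d = a * e
    have he1 : π e = 1 := he.2
    have hd1 : π d = 1 := hd.2
    have h1 : a * d⁻¹ = b * (d * e⁻¹ * d⁻¹) := by
      have : a = b * d * e⁻¹ := by rw [hbd]; group
      rw [this]; group
    have h2 : a * d⁻¹ ∈ A ⊓ B := by
      refine ⟨A.mul_mem ha (A.inv_mem hd.1), ?_⟩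
      rw [h1]
      exact B.mul_mem hb (hBn.conj_mem _ (B.inv_mem he.1) d)
    have h3 : π (a * d⁻¹) = 1 := hAB h2
    rw [map_mul, map_inv, hd1, inv_one, mul_one] at h3
    show π (a * e) = 1
    rw [map_mul, h3, he1, mul_one]
  have hABn : (A' ⊔ B').Normal := Subgroup.sup_normal _ _
  have hABH : InF H (A' ⊔ B') := by
    obtain ⟨_, h1⟩ := InF.mono hF₁ hA' (le_sup_left : A' ≤ A' ⊔ B') hABn
    obtain ⟨_, h2⟩ := InF.mono hF₂ hB' (le_sup_right : B' ≤ A' ⊔ B') hABn
    exact ⟨hABn, hinter _ h1 h2⟩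
  -- X / B' is not in H
  have hBH : ¬ H (X ⧸ B') := by
    intro h
    have h1 : InF F₁ B' := ⟨hB'n, hH1 _ h⟩
    have h2 := InF.inf hF₁ hA' h1
    exact hcon (InF.of_ker hF₁ π hπ (InF.mono hF₁ h2 hA'B' inferInstance))
  have hfin : Finite (X ⧸ B') := hF₂.fin _ hB'.2
  -- a maximal subgroup not containing A'
  have hW : ¬ A'.map (QuotientGroup.mk' B') ≤ frattini (X ⧸ B') := by
    intro h
    apply hBH
    apply sH
    have h1 : A' ⊔ B' ≤ ((QuotientGroup.mk' (frattini (X ⧸ B'))).comp (QuotientGroup.mk' B')).ker := by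
      refine sup_le ?_ ?_
      · intro x hx
        have : QuotientGroup.mk' B' x ∈ frattini (X ⧸ B') := h ⟨x, hx, rfl⟩
        exact (QuotientGroup.eq_one_iff _).2 this
      · intro x hx
        have : QuotientGroup.mk' B' x = 1 := (QuotientGroup.eq_one_iff _).2 hx
        rw [MonoidHom.mem_ker, MonoidHom.comp_apply, this, map_one]
    exact InF.of_ker hH ((QuotientGroup.mk' (frattini (X ⧸ B'))).comp (QuotientGroup.mk' B'))
      ((QuotientGroup.mk'_surjective _).comp (QuotientGroup.mk'_surjective _))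
      (InF.mono hH hABH h1 inferInstance)
  obtain ⟨L₀, hL₀, hWL⟩ : ∃ L₀ : Subgroup (X ⧸ B'), IsCoatom L₀ ∧
      ¬ A'.map (QuotientGroup.mk' B') ≤ L₀ := by
    by_contra hno
    push Not at hno
    apply hW
    unfold frattini Order.radical
    exact le_iInf₂ fun L hL => hno L hL
  let L : Subgroup X := L₀.comap (QuotientGroup.mk' B')
  have hL : IsCoatom L := Subgroup.isCoatom_comap_of_surjective (QuotientGroup.mk'_surjective B') hL₀
  have hBL : B' ≤ L := by
    intro x hx
    have : QuotientGroup.mk' B' x = 1 := (QuotientGroup.eq_one_iff _).2 hx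
    show QuotientGroup.mk' B' x ∈ L₀
    rw [this]; exact L₀.one_mem
  have hAL : ¬ A' ≤ L := by
    intro h
    apply hWL
    rintro _ ⟨x, hx, rfl⟩
    exact h hx
  have hAtop : L ⊔ A' = ⊤ := by
    refine hL.2 _ (lt_of_le_of_ne le_sup_left ?_)
    intro h
    exact hAL (by rw [h]; exact le_sup_right)
  -- commutators of A' lie in the kernel
  have hcomm : ∀ x ∈ A', ∀ y ∈ A', x * y * x⁻¹ * y⁻¹ ∈ A' ⊓ π.ker := by
    intro x hx y hy
    refine ⟨?_, ?_⟩
    · exact A'.mul_mem (A'.mul_mem (A'.mul_mem hx hy) (A'.inv_mem hx)) (A'.inv_mem hy)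
    · show π (x * y * x⁻¹ * y⁻¹) = 1
      have := hNab (π x) (hA'N hx) (π y) (hA'N hy)
      simp only [map_mul, map_inv]
      rw [this]; group
  have hLAn : (L ⊓ A').Normal := by
    have hle : (⊤ : Subgroup X) ≤ Subgroup.normalizer ((L ⊓ A' : Subgroup X) : Set X) := by
      rw [← hAtop]
      refine sup_le ?_ ?_
      · intro l hl
        rw [Subgroup.mem_normalizer_iff]
        intro h
        constructor
        · rintro ⟨h1, h2⟩
          exact ⟨L.mul_mem (L.mul_mem hl h1) (L.inv_mem hl), hA'n.conj_mem _ h2 l⟩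
        · rintro ⟨h1, h2⟩
          have e : h = l⁻¹ * (l * h * l⁻¹) * l⁻¹⁻¹ := by group
          rw [e]
          exact ⟨L.mul_mem (L.mul_mem (L.inv_mem hl) h1) (L.inv_mem (L.inv_mem hl)),
            hA'n.conj_mem _ h2 l⁻¹⟩
      · intro g hg
        have key : ∀ g ∈ A', ∀ h ∈ L ⊓ A', g * h * g⁻¹ ∈ L ⊓ A' := by
          intro g hg h hh
          have h1 := hcomm g hg h hh.2
          have h2 : g * h * g⁻¹ * h⁻¹ ∈ L := hBL (hA'KB h1)
          have e : g * h * g⁻¹ = (g * h * g⁻¹ * h⁻¹) * h := by group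
          refine ⟨?_, hA'n.conj_mem _ hh.2 g⟩
          rw [e]
          exact L.mul_mem h2 hh.1
        rw [Subgroup.mem_normalizer_iff]
        intro h
        constructor
        · exact key g hg h
        · intro hh
          have := key g⁻¹ (A'.inv_mem hg) _ hh
          have e : g⁻¹ * (g * h * g⁻¹) * g⁻¹⁻¹ = h := by group
          rwa [e] at this
    exact Subgroup.normalizer_eq_top_iff.1 (top_le_iff.1 hle)
  -- L ∩ A' lies in the kernel
  have hLAK : L ⊓ A' ≤ π.ker := by
    have hn : ((L ⊓ A').map π).Normal := hLAn.map π hπ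
    have hle' : (L ⊓ A').map π ≤ N := by
      rintro _ ⟨x, hx, rfl⟩
      exact hA'N hx.2
    rcases hmin _ hn hle' with h | h
    · intro x hx
      have : π x ∈ (L ⊓ A').map π := ⟨x, hx, rfl⟩
      rw [h] at this
      exact this
    · exfalso
      apply hAL
      intro a ha
      have : π a ∈ (L ⊓ A').map π := by rw [h]; exact hA'N ha
      obtain ⟨y, hy, hya⟩ := this
      have h1 : y⁻¹ * a ∈ A' ⊓ π.ker :=
        ⟨A'.mul_mem (A'.inv_mem hy.2) ha, by
          show π (y⁻¹ * a) = 1
          rw [map_mul, map_inv, hya, inv_mul_cancel]⟩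
      have h2 := L.mul_mem hy.1 (hBL (hA'KB h1))
      rwa [mul_inv_cancel_left] at h2
  by_cases hKL : π.ker ≤ L
  · -- the image of L is a maximal subgroup avoiding N
    apply hAL
    have hco : IsCoatom (L.map π) := by
      refine ⟨?_, ?_⟩
      · intro h
        apply hL.1
        rw [eq_top_iff]
        intro x _
        have : π x ∈ L.map π := by rw [h]; trivial
        obtain ⟨y, hy, hyx⟩ := this
        have h1 : y⁻¹ * x ∈ π.ker := by
          rw [MonoidHom.mem_ker, map_mul, map_inv, hyx, inv_mul_cancel]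
        have h2 := L.mul_mem hy (hKL h1)
        rwa [mul_inv_cancel_left] at h2
      · intro M hM
        have h1 : L < M.comap π := by
          refine lt_of_le_of_ne (Subgroup.map_le_iff_le_comap.1 hM.le) ?_
          intro h
          apply hM.ne
          rw [h, Subgroup.map_comap_eq_self_of_surjective hπ]
        have h2 := hL.2 _ h1
        rw [eq_top_iff]
        intro g _
        obtain ⟨x, rfl⟩ := hπ g
        have : x ∈ M.comap π := by rw [h2]; trivial
        exact this
    intro a ha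
    have h1 : π a ∈ L.map π := frattini_le_coatom hco (hNF (hA'N ha))
    obtain ⟨y, hy, hya⟩ := h1
    have h2 : y⁻¹ * a ∈ π.ker := by
      rw [MonoidHom.mem_ker, map_mul, map_inv, hya, inv_mul_cancel]
    have h3 := L.mul_mem hy (hKL h2)
    rwa [mul_inv_cancel_left] at h3
  · -- then G is a quotient of L, which is isomorphic to an F₁-group modulo L ∩ A'
    have hKtop : L ⊔ π.ker = ⊤ := by
      refine hL.2 _ (lt_of_le_of_ne le_sup_left ?_)
      intro h
      exact hKL (by rw [h]; exact le_sup_right)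
    have s1 : Function.Surjective (π.comp L.subtype) := by
      intro g
      obtain ⟨x, rfl⟩ := hπ g
      have : x ∈ L ⊔ π.ker := by rw [hKtop]; trivial
      obtain ⟨l, hl, k, hk, rfl⟩ := Subgroup.mem_sup_of_normal_right.1 this
      refine ⟨⟨l, hl⟩, ?_⟩
      have : π k = 1 := hk
      simp [this]
    have s2 : Function.Surjective ((QuotientGroup.mk' A').comp L.subtype) := by
      intro g
      obtain ⟨x, rfl⟩ := QuotientGroup.mk'_surjective A' g
      have : x ∈ L ⊔ A' := by rw [hAtop]; trivial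
      obtain ⟨l, hl, k, hk, rfl⟩ := Subgroup.mem_sup_of_normal_right.1 this
      refine ⟨⟨l, hl⟩, ?_⟩
      have : QuotientGroup.mk' A' k = 1 := (QuotientGroup.eq_one_iff _).2 hk
      rw [map_mul, this, mul_one]
      rfl
    have h1 := InF.ker hF₁ _ s2 hA'.2
    have h2 : ((QuotientGroup.mk' A').comp L.subtype).ker ≤ (π.comp L.subtype).ker := by
      intro l hl
      have h3 : (l : X) ∈ A' := (QuotientGroup.eq_one_iff _).1 hl
      exact hLAK ⟨l.2, h3⟩
    exact hcon (InF.of_ker hF₁ _ s1 (InF.mono hF₁ h1 h2 inferInstance))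

theorem sat_left (H M F₁ F₂ : ∀ (G : Type) [Group G], Prop) (hH : IsForm H) (sH : SatF H)
    (sM : SatF M) (hF₁ : IsForm F₁) (hF₂ : IsForm F₂)
    (hinter : ∀ (G : Type) [Group G], F₁ G → F₂ G → H G)
    (hH1 : ∀ (G : Type) [Group G], H G → F₁ G)
    (hM1 : ∀ (G : Type) [Group G], F₁ G → M G)
    (hjoin : ∀ (G : Type) [Group G], M G → joinClass F₁ F₂ G) : SatF F₁ := by
  have main : ∀ n : ℕ, ∀ (G : Type) [Group G] [Finite G], Nat.card G = n →
      F₁ (G ⧸ frattini G) → F₁ G := by
    intro n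
    induction n using Nat.strong_induction_on with
    | _ n ih =>
      intro G _ _ hcard hG
      by_cases hΦ : frattini G = ⊥
      · refine hF₁.iso _ _ ⟨?_⟩ hG
        exact (QuotientGroup.quotientMulEquivOfEq hΦ).trans QuotientGroup.quotientBot
      · have hMG : M G := sM G (hM1 _ hG)
        obtain ⟨N, hN⟩ := Set.Finite.exists_minimal
          (s := {N : Subgroup G | N.Normal ∧ N ≠ ⊥ ∧ N ≤ frattini G}) (Set.toFinite _)
          ⟨frattini G, inferInstance, hΦ, le_rfl⟩
        obtain ⟨⟨hNn, hN0, hNF⟩, hNmin⟩ := hN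
        have hmin : ∀ M : Subgroup G, M.Normal → M ≤ N → M = ⊥ ∨ M = N := by
          intro M hM hle
          by_cases h0 : M = ⊥
          · exact Or.inl h0
          · exact Or.inr (le_antisymm hle (hNmin ⟨hM, h0, hle.trans hNF⟩ hle))
        have hnil : Group.IsNilpotent (frattini G) := frattini_nilpotent
        have hNab : ∀ x ∈ N, ∀ y ∈ N, x * y = y * x := by
          have hsolv : Group.IsSolvable (frattini G) := inferInstance
          have hsN : Group.IsSolvable N :=
            Group.isSolvable_of_isSolvable_injective (f := Subgroup.inclusion hNF)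
              (Subgroup.inclusion_injective hNF)
          have hNt : Nontrivial N := (Subgroup.nontrivial_iff_ne_bot N).2 hN0
          have hlt := Group.IsSolvable.commutator_lt_top_of_nontrivial N
          have hc : ⁅N, N⁆ = ⊥ := by
            rcases hmin ⁅N, N⁆ inferInstance (Subgroup.commutator_le_self N) with h | h
            · exact h
            · exfalso
              apply hlt.ne
              have e := Subgroup.map_subtype_commutator N
              rw [h] at e
              have e2 : (commutator N).map N.subtype = (⊤ : Subgroup N).map N.subtype := by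
                rw [e, ← MonoidHom.range_eq_map, Subgroup.range_subtype]
              exact Subgroup.map_injective N.subtype_injective e2
          intro x hx y hy
          have h1 := Subgroup.commutator_mem_commutator hx hy
          rw [hc, Subgroup.mem_bot] at h1
          exact commutatorElement_eq_one_iff_mul_comm.1 h1
        have hGN : InF F₁ N := by
          refine ⟨hNn, ?_⟩
          refine ih (Nat.card (G ⧸ N)) ?_ (G ⧸ N) rfl ?_
          · rw [← hcard]
            have h1 := Subgroup.card_eq_card_quotient_mul_card_subgroup N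
            have hNt : Nontrivial N := (Subgroup.nontrivial_iff_ne_bot N).2 hN0
            have h2 : 1 < Nat.card N := Finite.one_lt_card
            have h3 : 0 < Nat.card (G ⧸ N) := Nat.card_pos
            rw [h1]
            nlinarith
          · have h1 : frattini G ≤ ((QuotientGroup.mk' (frattini (G ⧸ N))).comp
                (QuotientGroup.mk' N)).ker := by
              have := frattini_le_comap_frattini_of_surjective (QuotientGroup.mk'_surjective N)
              intro x hx
              exact (QuotientGroup.eq_one_iff _).2 (this hx)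
            have h2 : InF F₁ (frattini G) := ⟨inferInstance, hG⟩
            exact InF.of_ker hF₁ ((QuotientGroup.mk' (frattini (G ⧸ N))).comp
                (QuotientGroup.mk' N))
              ((QuotientGroup.mk'_surjective _).comp (QuotientGroup.mk'_surjective _))
              (InF.mono hF₁ h2 h1 inferInstance)
        exact core H F₁ F₂ hH sH hF₁ hF₂ hinter hH1 G N hNn hN0 hmin hNab hNF hGN (hjoin G hMG)
  intro G _ _ h
  exact main _ G rfl h

theorem joinClass_symm {A B : ∀ (G : Type) [Group G], Prop} (G : Type) [Group G]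
    (h : joinClass A B G) : joinClass B A G := by
  obtain ⟨hf, X, _, π, M₁, M₂, hs, h₁, h₂, hle⟩ := h
  exact ⟨hf, X, inferInstance, π, M₂, M₁, hs, h₂, h₁, by rwa [inf_comm]⟩

theorem joinClass_left' {A B : ∀ (G : Type) [Group G], Prop} (hA : IsForm A) (hB : IsForm B)
    (hne : ∃ (G : Type) (_ : Group G), B G)
    (G : Type) [Group G] (h : A G) : joinClass A B G := by
  refine ⟨hA.fin G h, G, inferInstance, MonoidHom.id G, ⊥, ⊤, Function.surjective_id, ?_,
    top_of_triv hB hne, ?_⟩
  · have := InF.ker hA (MonoidHom.id G) Function.surjective_id h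
    rwa [MonoidHom.ker_id] at this
  · simp

end


/-- `F` is a formation of finite groups, containing the groups with one element. -/
structure IsFormation (F : ∀ (G : Type) [Group G], Prop) : Prop where
  finite : ∀ (G : Type) [Group G], F G → Finite G
  trivial : ∀ (G : Type) [Group G], Subsingleton G → F G
  iso : ∀ (G K : Type) [Group G] [Group K], Nonempty (G ≃* K) → F G → F K
  quotient : ∀ (G : Type) [Group G] (N : Subgroup G) [N.Normal], F G → F (G ⧸ N)
  inter : ∀ (G : Type) [Group G] [Finite G] (N₁ N₂ : Subgroup G) [N₁.Normal] [N₂.Normal],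
    F (G ⧸ N₁) → F (G ⧸ N₂) → F (G ⧸ (N₁ ⊓ N₂))

/-- `F` is saturated: a finite group `G` is in `F` if `G / Φ(G)` is. -/
def IsSaturated (F : ∀ (G : Type) [Group G], Prop) : Prop :=
  ∀ (G : Type) [Group G] [Finite G], F (G ⧸ frattini G) → F G

/-- `M` is the smallest formation that contains `F₁` and `F₂`. -/
structure IsJoin (M F₁ F₂ : ∀ (G : Type) [Group G], Prop) : Prop where
  formation : IsFormation M
  left : ∀ (G : Type) [Group G], F₁ G → M G
  right : ∀ (G : Type) [Group G], F₂ G → M G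
  least : ∀ X : (∀ (G : Type) [Group G], Prop), IsFormation X →
    (∀ (G : Type) [Group G], F₁ G → X G) → (∀ (G : Type) [Group G], F₂ G → X G) →
    ∀ (G : Type) [Group G], M G → X G

theorem IsFormation.toIs {F : ∀ (G : Type) [Group G], Prop} (h : IsFormation F) : IsForm F :=
  Form4.toIs ⟨h.finite, h.iso, h.quotient, fun G _ _ N L _ _ hNL f₁ f₂ =>
    h.iso _ _ ⟨(QuotientGroup.quotientMulEquivOfEq hNL).trans QuotientGroup.quotientBot⟩
      (h.inter G N L f₁ f₂)⟩

/-- If `F₁ ∩ F₂` and the join `F₁ ∨ F₂` are saturated, then `F₁` and `F₂` are saturated. -/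
theorem result (H M F₁ F₂ : ∀ (G : Type) [Group G], Prop) (f₁ : IsFormation F₁)
    (f₂ : IsFormation F₂) (hH : ∀ (G : Type) [Group G], H G ↔ F₁ G ∧ F₂ G)
    (hM : IsJoin M F₁ F₂) (sH : IsSaturated H) (sM : IsSaturated M) :
    IsSaturated F₁ ∧ IsSaturated F₂ := by
  have f₁' := f₁.toIs
  have f₂' := f₂.toIs
  have e₁ : ∃ (G : Type) (_ : Group G), F₁ G := ⟨Unit, inferInstance, f₁.trivial Unit inferInstance⟩
  have e₂ : ∃ (G : Type) (_ : Group G), F₂ G := ⟨Unit, inferInstance, f₂.trivial Unit inferInstance⟩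
  have fH' : IsForm H := by
    refine ⟨fun G _ h => f₁.finite G ((hH G).1 h).1, ?_, ?_, ?_⟩
    · intro G K _ _ e h
      exact (hH K).2 ⟨f₁.iso G K e ((hH G).1 h).1, f₂.iso G K e ((hH G).1 h).2⟩
    · intro G _ N _ h
      exact (hH _).2 ⟨f₁.quotient G N ((hH G).1 h).1, f₂.quotient G N ((hH G).1 h).2⟩
    · intro G _ N₁ N₂ _ _ h h'
      exact (hH _).2 ⟨f₁'.inf G N₁ N₂ ((hH _).1 h).1 ((hH _).1 h').1,
        f₂'.inf G N₁ N₂ ((hH _).1 h).2 ((hH _).1 h').2⟩
  have jf := joinClass_form f₁' f₂'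
  have hj : ∀ (G : Type) [Group G], M G → joinClass F₁ F₂ G := by
    refine hM.least (joinClass F₁ F₂) ?_
      (fun G _ h => joinClass_left' f₁' f₂' e₂ G h)
      (fun G _ h => joinClass_symm G (joinClass_left' f₂' f₁' e₁ G h))
    exact ⟨jf.fin, fun G _ h => joinClass_left' f₁' f₂' e₂ G (f₁.trivial G h), jf.iso, jf.quot,
      fun G _ _ N₁ N₂ _ _ a b => jf.inf G N₁ N₂ a b⟩
  exact ⟨sat_left H M F₁ F₂ fH' sH sM f₁' f₂' (fun G _ a b => (hH G).2 ⟨a, b⟩)
      (fun G _ h => ((hH G).1 h).1) hM.left hj,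
    sat_left H M F₂ F₁ fH' sH sM f₂' f₁' (fun G _ a b => (hH G).2 ⟨b, a⟩)
      (fun G _ h => ((hH G).1 h).2) hM.right (fun G _ h => joinClass_symm G (hj G h))⟩

end Pool.Agent.Results.MP_44c8f1_al.Complements
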